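import Mathlib
import Pool.Agent.N817.DensFin

/-!
# Abelian varieties of `GL₂`-type over totally real fields in the `2`-extensions of `ℚ` unramified
# outside `{2, q, ∞}`: the Tate module is irreducible at `2`

Let `q` be a prime number that is `3` or `5` modulo `8`, and let `L` be a number field contained in a
finite Galois extension of `ℚ` whose degree is a power of `2` and which is unramified outside
`{2, q, ∞}`. Examples are the totally real fields `ℚ(√2)`, `ℚ(√q)` for `q = 5` modulo `8`, the maximal
real subfield of `ℚ(ζ_N)` for `N` a power of `2`, and infinitely many others; there is no condition on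
the Galois group.

Let `V` be a continuous irreducible `n`-dimensional representation of `G_L` over a finite extension of
`ℚ_2` (or over the fraction field of a Noetherian local domain with finite residue field of
characteristic `2`) which is residually unipotent and unramified outside `{2, q}`.

Theorem. `V` is irreducible as a representation of the decomposition group of every place of `L`
above `2`.

For `n = 2` this applies to the Tate module `V_λ(A)`, for `λ` above `2`, of an abelian variety `A / L`
of `GL₂`-type with good reduction outside `{2, q}` such that `A[λ]` generates a `2`-extension of `L`: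
`A` has neither good ordinary nor multiplicative reduction at `λ`.
-/

set_option autoImplicit false

namespace Pool.Agent.Results.MP_326854_nt.IrreducibleAtTwo

open Matrix IsLocalRing

/-- An algebraic closure of `ℚ`. -/
abbrev QBar : Type := AlgebraicClosure ℚ

/-- The absolute Galois group of `ℚ`. -/
def AbsGal : Type := QBar ≃ₐ[ℚ] QBar

/-- its group structure -/
noncomputable instance instGroupAbsGal : Group AbsGal := AlgEquiv.aut (R := ℚ) (A₁ := QBar)

/-- its Krull topology -/
noncomputable instance instTopAbsGal : TopologicalSpace AbsGal := krullTopology ℚ QBar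

/-- The action of the Galois group on `ℚ̄`. -/
noncomputable def app (σ : AbsGal) (x : QBar) : QBar := (show QBar ≃ₐ[ℚ] QBar from σ) x

/-- The subfields of `ℚ̄`. -/
abbrev Field' : Type := IntermediateField ℚ QBar

/-- The absolute Galois group of the field `L`. -/
noncomputable def galOf (L : Field') : Subgroup AbsGal := IntermediateField.fixingSubgroup L

/-- The decomposition group of the prime of `ℚ̄` above `p` given by the embedding `ι` of `ℚ̄`. -/
def Dec {p : ℕ} [Fact p.Prime] (ι : QBar →ₐ[ℚ] PadicAlgCl p) : Set AbsGal :=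
  {σ | ∃ τ : PadicAlgCl p ≃ₐ[ℚ_[p]] PadicAlgCl p, ∀ x, τ (ι x) = ι (app σ x)}

/-- Its inertia group: the automorphisms which are trivial on the residue field. -/
def Inr {p : ℕ} [Fact p.Prime] (ι : QBar →ₐ[ℚ] PadicAlgCl p) : Set AbsGal :=
  {σ | ∃ τ : PadicAlgCl p ≃ₐ[ℚ_[p]] PadicAlgCl p, (∀ x, τ (ι x) = ι (app σ x)) ∧
    ∀ z : PadicAlgCl p, ‖z‖ ≤ 1 → ‖τ z - z‖ < 1}

/-- `L` is contained in a finite Galois extension `M` of `ℚ`, of degree a power of `2`, which is
unramified outside `2`, `q` and infinity. -/
def InTwoExtension (q : ℕ) (L : Field') : Prop :=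
  ∃ M : Field', L ≤ M ∧ (∀ σ : AbsGal, ∀ x ∈ M, app σ x ∈ M) ∧
    (∃ a : ℕ, Module.finrank ℚ M = 2 ^ a) ∧
    ∀ (p : ℕ) [Fact p.Prime] (ι : QBar →ₐ[ℚ] PadicAlgCl p), p ≠ 2 → p ≠ q →
      ∀ σ ∈ (Inr ι : Set AbsGal), ∀ x ∈ M, app σ x = x

variable {L : Field'}

/-- The representation `ρ` of the absolute Galois group of `L` is continuous, residually unipotent
and unramified outside `2` and `q`. -/
structure Admissible {A : Type} [CommRing A] [IsLocalRing A] [TopologicalSpace A] (q : ℕ) {n : ℕ}
    (ρ : galOf L →* GL (Fin n) A) : Prop where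
  cont : ∀ i j, Continuous fun σ => (ρ σ : Matrix (Fin n) (Fin n) A) i j
  unipotent : ∀ σ, ∃ m : ℕ, ∀ i j,
    (((ρ σ : Matrix (Fin n) (Fin n) A) - 1) ^ m) i j ∈ maximalIdeal A
  unramified : ∀ (p : ℕ) [Fact p.Prime] (ι : QBar →ₐ[ℚ] PadicAlgCl p), p ≠ 2 → p ≠ q →
    ∀ σ : galOf L, (σ : AbsGal) ∈ Inr ι → ρ σ = 1

/-- `V = F ^ n` is irreducible under the elements of the absolute Galois group of `L` that lie in
`D`. -/
def IrreducibleOn {A : Type} [CommRing A] (F : Type) [Field F] [Algebra A F] {n : ℕ}
    (ρ : galOf L →* GL (Fin n) A) (D : Set AbsGal) : Prop :=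
  ∀ W : Submodule F (Fin n → F), (∀ σ : galOf L, (σ : AbsGal) ∈ D →
    ∀ w ∈ W, ((ρ σ : Matrix (Fin n) (Fin n) A).map (algebraMap A F)) *ᵥ w ∈ W) → W = ⊥ ∨ W = ⊤

/-- **Irreducible representations are irreducible at `2`.** -/
theorem result (q : ℕ) (hq : q.Prime) (hq8 : q % 8 = 3 ∨ q % 8 = 5)
    (L : Field') (hL : InTwoExtension q L)
    (A : Type) [CommRing A] [IsLocalRing A] [IsNoetherianRing A] [TopologicalSpace A]
    (hA : IsAdic (maximalIdeal A)) (hfin : Finite (ResidueField A)) (h2 : (2 : A) ∈ maximalIdeal A)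
    (F : Type) [Field F] [Algebra A F] [IsFractionRing A F] (n : ℕ)
    (ρ : galOf L →* GL (Fin n) A) (hρ : Admissible q ρ)
    (hirr : IrreducibleOn F ρ Set.univ) (ι : QBar →ₐ[ℚ] PadicAlgCl 2) :
    IrreducibleOn F ρ (Dec ι) := fun W hW =>
  Pool.Agent.N817.irrL hq hq8 hL hA hfin h2 hρ.cont hρ.unipotent hρ.unramified ι
    (fun W hW => hirr W fun σ _ => hW σ) W hW

end Pool.Agent.Results.MP_326854_nt.IrreducibleAtTwo
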