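import Mathlib
import Pool.Agent.N817.DensFin

/-!
# Abelian varieties of `GL₂`-type over totally real fields in the `2`-extensions of `ℚ` unramified
# outside `{2, q, ∞}`: the reduction at `2`

Let `q` be a prime number that is `3` or `5` modulo `8`, and let `L` be a number field contained in a
finite Galois extension of `ℚ` whose degree is a power of `2` and which is unramified outside
`{2, q, ∞}`. Examples are the totally real fields `ℚ(√2)`, `ℚ(√q)` for `q = 5` modulo `8`, the maximal
real subfield of `ℚ(ζ_N)` for `N` a power of `2`, and infinitely many others; there is no condition on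
the Galois group.

Let `V` be a continuous irreducible two-dimensional representation of `G_L` over a finite extension of
`ℚ_2` (or over the fraction field of a Noetherian local domain with finite residue field of
characteristic `2`) which is residually unipotent and unramified outside `{2, q}`. This is the
situation of the Tate module `V_λ(A)`, for `λ` above `2`, of an abelian variety `A / L` of `GL₂`-type
with good reduction outside `{2, q}` such that the points of order `2` of `A` (equivalently `A[λ]`)
generate a `2`-extension of `L`.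

Theorem. Let `D` be the decomposition group of a place of `L` above `2`. If a line of `V` is stable
under a subgroup `D'` of finite index of `D`, and if the ratio of the two characters of `D'` (on this
line and on the quotient) has infinite order, for example if `A` is potentially ordinary or potentially
multiplicative at `λ`, then `V` is dihedral: it is induced from a character of the absolute Galois
group of a quadratic extension of `L`.

So `A` has complex multiplication over this quadratic extension by the theorem of Faltings, and it is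
associated to a Hilbert newform with complex multiplication. (The deduction from the theorem of
Faltings and class field theory is not part of the formal proof.)

Proof. By the theorem of Burnside and the computation of the quadratic fields, `D` is dense in the
image of `G_L`. So the line is stable under a subgroup of finite index, and the theorem of Clifford
gives the result.
-/

set_option autoImplicit false

namespace Pool.Agent.Results.MP_326854_nt.PotentiallyOrdinaryAtTwo

open Matrix IsLocalRing

/-- An algebraic closure of `ℚ`. -/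
abbrev QBar : Type := AlgebraicClosure ℚ

/-- The absolute Galois group of `ℚ`. -/
def AbsGal : Type := QBar ≃ₐ[ℚ] QBar

/-- its group structure -/
noncomputable instance instGroupAbsGal : Group AbsGal := AlgEquiv.aut (R := ℚ) (A₁ := QBar)

/-- its Krull topology -/
noncomputable instance instTopAbsGal : TopologicalSpace AbsGal := krullTopology ℚ QBar

/-- The action of the Galois group on `ℚ̄`. -/
noncomputable def app (σ : AbsGal) (x : QBar) : QBar := (show QBar ≃ₐ[ℚ] QBar from σ) x

/-- The subfields of `ℚ̄`. -/
abbrev Field' : Type := IntermediateField ℚ QBar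

/-- The absolute Galois group of the field `L`. -/
noncomputable def galOf (L : Field') : Subgroup AbsGal := IntermediateField.fixingSubgroup L

/-- The decomposition group of the prime of `ℚ̄` above `p` given by the embedding `ι` of `ℚ̄`. -/
def Dec {p : ℕ} [Fact p.Prime] (ι : QBar →ₐ[ℚ] PadicAlgCl p) : Set AbsGal :=
  {σ | ∃ τ : PadicAlgCl p ≃ₐ[ℚ_[p]] PadicAlgCl p, ∀ x, τ (ι x) = ι (app σ x)}

/-- Its inertia group: the automorphisms which are trivial on the residue field. -/
def Inr {p : ℕ} [Fact p.Prime] (ι : QBar →ₐ[ℚ] PadicAlgCl p) : Set AbsGal :=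
  {σ | ∃ τ : PadicAlgCl p ≃ₐ[ℚ_[p]] PadicAlgCl p, (∀ x, τ (ι x) = ι (app σ x)) ∧
    ∀ z : PadicAlgCl p, ‖z‖ ≤ 1 → ‖τ z - z‖ < 1}

/-- `L` is contained in a finite Galois extension `M` of `ℚ`, of degree a power of `2`, which is
unramified outside `2`, `q` and infinity. -/
def InTwoExtension (q : ℕ) (L : Field') : Prop :=
  ∃ M : Field', L ≤ M ∧ (∀ σ : AbsGal, ∀ x ∈ M, app σ x ∈ M) ∧
    (∃ a : ℕ, Module.finrank ℚ M = 2 ^ a) ∧
    ∀ (p : ℕ) [Fact p.Prime] (ι : QBar →ₐ[ℚ] PadicAlgCl p), p ≠ 2 → p ≠ q →
      ∀ σ ∈ (Inr ι : Set AbsGal), ∀ x ∈ M, app σ x = x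

variable {L : Field'}

/-- The representation `ρ` of the absolute Galois group of `L` is continuous, residually unipotent
and unramified outside `2` and `q`. -/
structure Admissible {A : Type} [CommRing A] [IsLocalRing A] [TopologicalSpace A] (q : ℕ)
    (ρ : galOf L →* GL (Fin 2) A) : Prop where
  cont : ∀ i j, Continuous fun σ => (ρ σ : Matrix (Fin 2) (Fin 2) A) i j
  unipotent : ∀ σ, ∃ m : ℕ, ∀ i j,
    (((ρ σ : Matrix (Fin 2) (Fin 2) A) - 1) ^ m) i j ∈ maximalIdeal A
  unramified : ∀ (p : ℕ) [Fact p.Prime] (ι : QBar →ₐ[ℚ] PadicAlgCl p), p ≠ 2 → p ≠ q →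
    ∀ σ : galOf L, (σ : AbsGal) ∈ Inr ι → ρ σ = 1

/-- The action of `σ` on `V = F ^ 2`. -/
noncomputable def act {A : Type} [CommRing A] (F : Type) [Field F] [Algebra A F]
    (ρ : galOf L →* GL (Fin 2) A) (σ : galOf L) (v : Fin 2 → F) : Fin 2 → F :=
  ((ρ σ : Matrix (Fin 2) (Fin 2) A).map (algebraMap A F)) *ᵥ v

/-- `V` is irreducible. -/
def Irreducible {A : Type} [CommRing A] (F : Type) [Field F] [Algebra A F]
    (ρ : galOf L →* GL (Fin 2) A) : Prop :=
  ∀ W : Submodule F (Fin 2 → F), (∀ σ, ∀ w ∈ W, act F ρ σ w ∈ W) → W = ⊥ ∨ W = ⊤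

/-- `V` is potentially ordinary or multiplicative on `D`: there are a subgroup `D'` of `G_L`, finitely
many left cosets of which cover `D ∩ G_L`, and a nonzero vector `v` which spans a line stable under
`D'`, such that the ratio of the characters of `D'` on this line and on the quotient by this line has
infinite order: for some `δ` in `D'` and all `k > 0` the square of the eigenvalue of `δ ^ k` on the
line is not the determinant of `δ ^ k`. -/
def PotentiallyOrdinaryOn {A : Type} [CommRing A] (F : Type) [Field F] [Algebra A F]
    (ρ : galOf L →* GL (Fin 2) A) (D : Set AbsGal) : Prop :=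
  ∃ (D' : Subgroup (galOf L)) (R : Set (galOf L)) (v : Fin 2 → F), R.Finite ∧
    (∀ δ : galOf L, (δ : AbsGal) ∈ D → ∃ r ∈ R, r⁻¹ * δ ∈ D') ∧ v ≠ 0 ∧
    (∀ δ ∈ D', ∃ c : F, act F ρ δ v = c • v) ∧
    ∃ δ ∈ D', ∀ k : ℕ, 0 < k → ∀ c : F, act F ρ (δ ^ k) v = c • v →
      c ^ 2 ≠ algebraMap A F ((ρ (δ ^ k) : Matrix (Fin 2) (Fin 2) A).det)

/-- `V` is dihedral: the absolute Galois group of a quadratic extension of `L` preserves a line. -/
def Dihedral {A : Type} [CommRing A] (F : Type) [Field F] [Algebra A F]
    (ρ : galOf L →* GL (Fin 2) A) : Prop :=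
  ∃ (T : Subgroup (galOf L)) (v : Fin 2 → F), T.index = 2 ∧
    IsOpen (T : Set (galOf L)) ∧ v ≠ 0 ∧ ∀ σ ∈ T, ∃ c : F, act F ρ σ v = c • v

/-- **Potentially ordinary representations are dihedral.** -/
theorem result (q : ℕ) (hq : q.Prime) (hq8 : q % 8 = 3 ∨ q % 8 = 5)
    (L : Field') (hL : InTwoExtension q L)
    (A : Type) [CommRing A] [IsLocalRing A] [IsNoetherianRing A] [TopologicalSpace A]
    (hA : IsAdic (maximalIdeal A)) (hfin : Finite (ResidueField A)) (h2 : (2 : A) ∈ maximalIdeal A)
    (F : Type) [Field F] [Algebra A F] [IsFractionRing A F]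
    (ρ : galOf L →* GL (Fin 2) A) (hρ : Admissible q ρ)
    (hirr : Irreducible F ρ) (ι : QBar →ₐ[ℚ] PadicAlgCl 2)
    (hord : PotentiallyOrdinaryOn F ρ (Dec ι)) : Dihedral F ρ := by
  obtain ⟨D', R, v, hRf, hR, hv, hD', hdist⟩ := hord
  exact Pool.Agent.N817.dihL hq hq8 hL hA hfin h2 hρ.cont hρ.unipotent hρ.unramified ι hirr hRf hR
    hv hD' hdist

end Pool.Agent.Results.MP_326854_nt.PotentiallyOrdinaryAtTwo
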